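import Pool.Agent.X26.LF.Stm

set_option autoImplicit false

namespace Pool.Agent.X27.LF

open Finset Pool.Agent.X26.LF

open Classical in
/-- the coefficient vector of `∑_{k ∈ L} w k * x (κ k)` -/
noncomputable def coef {m N p : ℕ} (w : Fin m → ZMod p) (L : Finset (Fin m)) (κ : Fin m → Fin N) :
    Fin N → ZMod p := fun i => ∑ k ∈ L, if κ k = i then w k else 0

theorem coef_sum {m N p : ℕ} (w : Fin m → ZMod p) (L : Finset (Fin m)) (κ : Fin m → Fin N)
    (x : Fin N → ZMod p) : ∑ i, coef w L κ i * x i = ∑ k ∈ L, w k * x (κ k) := by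
  classical
  unfold coef
  simp only [sum_mul]
  rw [sum_comm]
  refine sum_congr rfl fun k _ => ?_
  simp [ite_mul, Finset.sum_ite_eq]

theorem coef_inj {m N p : ℕ} (w : Fin m → ZMod p) (κ : Fin m → Fin N)
    (hκ : Function.Injective κ) (k : Fin m) : coef w univ κ (κ k) = w k := by
  classical
  unfold coef
  rw [sum_eq_single k]
  · simp
  · intro b _ hb
    rw [if_neg (fun h => hb (hκ h))]
  · intro h
    exact absurd (mem_univ k) h

theorem indep {m N p : ℕ} [Fact p.Prime] (u v : Fin m → ℤ) (A : Finset (ZMod p))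
    (hNP : NP u v p) (hF : Free v p A) (ι : Fin m → Fin N) (hι : Function.Injective ι)
    (j0 : Fin m) (K L : Finset (Fin m)) (a : Fin m → ZMod p) (κ : Fin m → Fin N)
    (ha : ∀ k ∈ K, a k ∈ A) (x : Fin N → ZMod p)
    (hx : ∑ k ∈ K, (v k : ZMod p) * a k + ∑ k ∈ L, (v k : ZMod p) * x (κ k) = 1) :
    coef (fun j => (u j : ZMod p)) univ ι ≠ 0 ∧
    ¬ ∃ l, coef (fun k => (v k : ZMod p)) L κ =
      fun i => l * coef (fun j => (u j : ZMod p)) univ ι i := by
  classical
  refine ⟨fun h => ?_, ?_⟩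
  · have h1 := congrFun h (ι j0)
    rw [coef_inj _ ι hι j0] at h1
    exact hNP.1 j0 h1
  · rintro ⟨l, hl⟩
    by_cases l0 : l = 0
    · subst l0
      have h1 := coef_sum (fun k => (v k : ZMod p)) L κ x
      rw [hl] at h1
      simp only [zero_mul, sum_const_zero] at h1
      rw [← h1, add_zero] at hx
      exact hF K a ha hx
    · have hd : ∀ j, coef (fun k => (v k : ZMod p)) L κ (ι j) = l * (u j : ZMod p) := by
        intro j
        rw [hl]
        simp only
        rw [coef_inj _ ι hι j]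
      have hex : ∀ j, ∃ k ∈ L, κ k = ι j := by
        intro j
        by_contra hcon
        push Not at hcon
        have h0 : coef (fun k => (v k : ZMod p)) L κ (ι j) = 0 := by
          unfold coef
          refine sum_eq_zero fun k hk => ?_
          rw [if_neg (hcon k hk)]
        rw [hd j] at h0
        exact (mul_ne_zero l0 (hNP.1 j)) h0
      choose τ hτL hτ using hex
      have hτi : Function.Injective τ := by
        intro j j' h
        apply hι
        rw [← hτ j, ← hτ j', h]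
      have hτb : Function.Bijective τ := Finite.injective_iff_bijective.mp hτi
      have hLu : L = univ := by
        rw [eq_univ_iff_forall]
        intro k
        obtain ⟨j, rfl⟩ := hτb.2 k
        exact hτL j
      have hκ : Function.Injective κ := by
        intro k k' h
        obtain ⟨j, rfl⟩ := hτb.2 k
        obtain ⟨j', rfl⟩ := hτb.2 k'
        rw [hτ, hτ] at h
        rw [hι h]
      subst hLu
      refine hNP.2 (Equiv.ofBijective τ hτb).symm l fun i => ?_
      have h1 := hd ((Equiv.ofBijective τ hτb).symm i)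
      have h2 : τ ((Equiv.ofBijective τ hτb).symm i) = i :=
        (Equiv.ofBijective τ hτb).apply_symm_apply i
      rw [← hτ, h2, coef_inj _ κ hκ i] at h1
      exact h1

/-- The events. -/
def Ev {m N p : ℕ} (u v : Fin (m + 1) → ℤ) (A : Finset (ZMod p)) (s : ZMod p)
    (ω : (Fin (m + 1) → Fin N) × Fin (m + 1) × Fin (m + 1) × Finset (Fin (m + 1)) ×
      Finset (Fin (m + 1)) × (Fin m → (A ⊕ Fin N))) (x : Fin N → ZMod p) : Prop :=
  Function.Injective ω.1 ∧ ∑ j, (u j : ZMod p) * x (ω.1 j) = s ∧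
  ∃ (a : Fin (m + 1) → ZMod p) (κ : Fin (m + 1) → Fin N),
    (∀ k ∈ ω.2.2.2.1, a k ∈ A) ∧
    (∀ k ∈ ω.2.2.2.1, ∀ y : A, Fin.insertNth (α := fun _ => (A ⊕ Fin N)) ω.2.2.1
      (Sum.inr (ω.1 ω.2.1)) ω.2.2.2.2.2 k = Sum.inl y → a k = y) ∧
    (∀ k ∈ ω.2.2.2.1, ∃ y : A, Fin.insertNth (α := fun _ => (A ⊕ Fin N)) ω.2.2.1
      (Sum.inr (ω.1 ω.2.1)) ω.2.2.2.2.2 k = Sum.inl y) ∧
    (∀ k ∈ ω.2.2.2.2.1, Fin.insertNth (α := fun _ => (A ⊕ Fin N)) ω.2.2.1
      (Sum.inr (ω.1 ω.2.1)) ω.2.2.2.2.2 k = Sum.inr (κ k)) ∧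
    ∑ k ∈ ω.2.2.2.1, (v k : ZMod p) * a k + ∑ k ∈ ω.2.2.2.2.1, (v k : ZMod p) * x (κ k) = 1

open Classical in
theorem ev_card (hC : S_CNT) {m N p : ℕ} [Fact p.Prime] (u v : Fin (m + 1) → ℤ)
    (A : Finset (ZMod p)) (s : ZMod p) (hNP : NP u v p) (hF : Free v p A)
    (ω : (Fin (m + 1) → Fin N) × Fin (m + 1) × Fin (m + 1) × Finset (Fin (m + 1)) ×
      Finset (Fin (m + 1)) × (Fin m → (A ⊕ Fin N))) :
    p ^ 2 * (univ.filter fun x : Fin N → ZMod p => Ev u v A s ω x).card ≤ p ^ N := by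
  by_cases hne : ∃ x : Fin N → ZMod p, Ev u v A s ω x
  · obtain ⟨x0, hι, hs0, a, κ, ha, h1, h2, h3, h4⟩ := hne
    obtain ⟨c0, cd⟩ := indep u v A hNP hF ω.1 hι 0 ω.2.2.2.1 ω.2.2.2.2.1 a κ ha x0 h4
    have h5 := (hC p N _ (coef (fun k => (v k : ZMod p)) ω.2.2.2.2.1 κ) s
      (1 - ∑ k ∈ ω.2.2.2.1, (v k : ZMod p) * a k) c0).2 cd
    rw [← h5]
    refine Nat.mul_le_mul_left _ (card_le_card ?_)
    intro x hx
    obtain ⟨-, hι', hs, a', κ', ha', g1, g2, g3, g4⟩ := mem_filter.mp hx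
    refine mem_filter.mpr ⟨mem_univ _, ?_, ?_⟩
    · rw [coef_sum]
      exact hs
    · rw [coef_sum, ← g4]
      have e1 : ∑ k ∈ ω.2.2.2.1, (v k : ZMod p) * a' k = ∑ k ∈ ω.2.2.2.1, (v k : ZMod p) * a k := by
        refine sum_congr rfl fun k hk => ?_
        obtain ⟨y, hy⟩ := h2 k hk
        rw [h1 k hk y hy, g1 k hk y hy]
      have e2 : ∑ k ∈ ω.2.2.2.2.1, (v k : ZMod p) * x (κ' k) =
          ∑ k ∈ ω.2.2.2.2.1, (v k : ZMod p) * x (κ k) := by
        refine sum_congr rfl fun k hk => ?_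
        have : κ' k = κ k := Sum.inr_injective ((g3 k hk).symm.trans (h3 k hk))
        rw [this]
      rw [e1, e2]
      ring
  · push Not at hne
    rw [filter_false_of_mem (fun x _ => hne x)]
    simp

theorem t_BAD : S_BAD := by
  classical
  intro hC m p N _ u v A s hm hNP hF
  obtain ⟨m, rfl⟩ : ∃ m', m = m' + 1 := ⟨m - 1, by omega⟩
  let Ω := (Fin (m + 1) → Fin N) × Fin (m + 1) × Fin (m + 1) × Finset (Fin (m + 1)) ×
      Finset (Fin (m + 1)) × (Fin m → (A ⊕ Fin N))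
  have hcov : (univ.filter fun x : Fin N → ZMod p => ∃ ι : Fin (m + 1) ↪ Fin N,
      ∑ j, (u j : ZMod p) * x (ι j) = s ∧ ∃ j, Bad v p A x (ι j)) ⊆
      (univ : Finset Ω).biUnion (fun ω => univ.filter fun x => Ev u v A s ω x) := by
    intro x hx
    obtain ⟨-, ι, hs, j, K, L, a, κ, hKL, haK, ⟨k0, hk0, hk0'⟩, hrel⟩ := mem_filter.mp hx
    let b : Fin (m + 1) → (A ⊕ Fin N) := fun k =>
      if k ∈ L then Sum.inr (κ k) else if h : a k ∈ A then Sum.inl ⟨a k, h⟩ else Sum.inr (κ k)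
    have hb : Fin.insertNth (α := fun _ => (A ⊕ Fin N)) k0 (Sum.inr (ι j))
        (fun i => b (k0.succAbove i)) = b := by
      rw [Fin.insertNth_eq_iff]
      refine ⟨?_, rfl⟩
      simp only [b, if_pos hk0, hk0']
    rw [mem_biUnion]
    refine ⟨(ι, j, k0, K, L, fun i => b (k0.succAbove i)), mem_univ _,
      mem_filter.mpr ⟨mem_univ _, ι.injective, hs, a, κ, haK, ?_, ?_, ?_, hrel⟩⟩
    · intro k hk y hy
      simp only at hk hy
      rw [hb] at hy
      have hkL : k ∉ L := Finset.disjoint_left.mp hKL hk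
      simp only [b, if_neg hkL, dif_pos (haK k hk)] at hy
      rw [← Sum.inl_injective hy]
    · intro k hk
      simp only at hk ⊢
      rw [hb]
      have hkL : k ∉ L := Finset.disjoint_left.mp hKL hk
      exact ⟨⟨a k, haK k hk⟩, by simp only [b, if_neg hkL, dif_pos (haK k hk)]⟩
    · intro k hk
      simp only at hk ⊢
      rw [hb]
      simp only [b, if_pos hk]
  have h1 := card_le_card hcov
  have h2 : p ^ 2 * ((univ : Finset Ω).biUnion
      (fun ω => univ.filter fun x => Ev u v A s ω x)).card ≤ Fintype.card Ω * p ^ N := by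
    calc _ ≤ p ^ 2 * ∑ ω : Ω, (univ.filter fun x : Fin N → ZMod p => Ev u v A s ω x).card :=
          Nat.mul_le_mul_left _ card_biUnion_le
      _ = ∑ ω : Ω, p ^ 2 * (univ.filter fun x : Fin N → ZMod p => Ev u v A s ω x).card := by
          rw [mul_sum]
      _ ≤ ∑ _ω : Ω, p ^ N := sum_le_sum fun ω _ => ev_card hC u v A s hNP hF ω
      _ = Fintype.card Ω * p ^ N := by rw [sum_const, card_univ, smul_eq_mul]
  have h3 : Fintype.card Ω ≤ (m + 1) ^ 2 * 4 ^ (m + 1) * (A.card + N) ^ (2 * (m + 1) - 1) := by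
    have : Fintype.card Ω = N ^ (m + 1) * ((m + 1) * ((m + 1) * (2 ^ (m + 1) *
        (2 ^ (m + 1) * (A.card + N) ^ m)))) := by
      simp only [Ω, Fintype.card_prod, Fintype.card_fun, Fintype.card_fin, Fintype.card_finset,
        Fintype.card_sum, Fintype.card_coe]
    rw [this]
    have e1 : 2 * (m + 1) - 1 = (m + 1) + m := by omega
    have e2 : (4 : ℕ) ^ (m + 1) = 2 ^ (m + 1) * 2 ^ (m + 1) := by
      rw [← mul_pow]
      norm_num
    have e3 : N ^ (m + 1) ≤ (A.card + N) ^ (m + 1) := Nat.pow_le_pow_left (by omega) _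
    rw [e1, e2, pow_add (A.card + N)]
    calc _ = N ^ (m + 1) * ((m + 1) ^ 2 * (2 ^ (m + 1) * 2 ^ (m + 1)) * (A.card + N) ^ m) := by
          ring
      _ ≤ (A.card + N) ^ (m + 1) *
          ((m + 1) ^ 2 * (2 ^ (m + 1) * 2 ^ (m + 1)) * (A.card + N) ^ m) :=
          Nat.mul_le_mul_right _ e3
      _ = _ := by ring
  calc _ ≤ _ := Nat.mul_le_mul_left _ h1
    _ ≤ _ := h2
    _ ≤ _ := Nat.mul_le_mul_right _ h3

end Pool.Agent.X27.LF
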